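import Pool.Agent.H984.Fin4

/-!
MP_50f558_pr, Q1: negative answer. Uniform mixing times are not robust under quasi-isometries between bounded degree
graphs, even if one of the two graphs is vertex-transitive.

How the definitions (all in `Pool.Agent.H984.Stmt`, and `Robust` below) match the problem file. Graphs are
`SimpleGraph`s on finite vertex types.
* `lazyWalk G` is the transition matrix `P` of the lazy simple random walk, `P(x,x) = 1/2`, `P(x,y) = 1/(2 deg x)` for
  neighbours `x, y`, and `0` otherwise.
* `statLaw G x = deg x / (2 |E|)`.
* `Mixed G t` says that `|P^t(x,y) / π(y) - 1| ≤ 1/4` for all `x, y`.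
* `tInf G` is the least `t` with `Mixed G t` (an infimum over the natural numbers; the theorem also states that
  `Mixed G (tInf G)` holds for both graphs, so that the minimum is attained).
* `IsQI a b G G' f` says that `f` is an `(a,b)`-quasi-isometry from `G` to `G'` (graph distances; every vertex of `G'` is
  within distance `b` of the image).
* `VertexTransitive G` says that the automorphism group is transitive on the vertices.
* `Robust` is the assertion of Q1.

The graphs. `G` is a lamplighter graph over the group `Q = SL_2(F)` with lamps in `Q` (and a third coordinate in `Q`, on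
which the walk also moves), for a fixed symmetric generating set of size `p^2 - 1` whose spectral gap is uniform in `F`,
where `F` runs over extensions of the prime field with `p` elements. `G'` is a blow-up of `G` by a fixed factor in which
the edges moving a few chosen lamps carry lower weights. The weights depend on the levels (distances to the identity) of
these lamps in such a way that the chosen lamps, arranged in `M` groups, are released one group after the other, each
group needing a time of order `|Q| log |Q|`, the order of the mixing time of `G`.
-/

set_option autoImplicit false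

open Classical

namespace Pool.Agent.Results.MP_50f558_pr.NotRobust

open Pool.Agent.H984

/-- The assertion of Q1: for all `a ≥ 1`, `b ≥ 0`, `d`, `D` there is `C > 0` with
`t_∞(G) / C ≤ t_∞(G') ≤ C t_∞(G)` whenever `G` is finite, connected, vertex-transitive of degree `d` and `G'` is finite,
connected, of maximum degree at most `D`, and `(a,b)`-quasi-isometric to `G`. -/
def Robust : Prop :=
  ∀ a b : ℝ, 1 ≤ a → 0 ≤ b → ∀ d D : ℕ, ∃ C : ℝ, 0 < C ∧
    ∀ (V V' : Type) (_ : Fintype V) (_ : Fintype V') (G : SimpleGraph V) (G' : SimpleGraph V'),
      G.Connected → G'.Connected → VertexTransitive G → (∀ x, G.degree x = d) → (∀ x, G'.degree x ≤ D) →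
      (∃ f : V → V', IsQI a b G G' f) →
      C⁻¹ * (tInf G : ℝ) ≤ tInf G' ∧ (tInf G' : ℝ) ≤ C * tInf G

/-- Q1 is false; in fact there are `d` and `D` such that for every `C` there are a finite connected `d`-regular
vertex-transitive graph `G` and a finite connected graph `G'` of maximum degree at most `D`, `(1,1)`-quasi-isometric to
`G`, with `t_∞(G') > C t_∞(G)`. -/
theorem result : ¬ Robust ∧
    ∃ d D : ℕ, ∀ C : ℝ, ∃ (V V' : Type) (_ : Fintype V) (_ : Fintype V') (G : SimpleGraph V) (G' : SimpleGraph V')
      (f : V → V'), G.Connected ∧ G'.Connected ∧ VertexTransitive G ∧ (∀ x, G.degree x = d) ∧ (∀ x, G'.degree x ≤ D) ∧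
        IsQI 1 1 G G' f ∧ Mixed G (tInf G) ∧ Mixed G' (tInf G') ∧ C * (tInf G : ℝ) < tInf G' := by
  refine ⟨fun h => ?_, main⟩
  obtain ⟨d, D, hmain⟩ := main
  obtain ⟨C, _, hC⟩ := h 1 1 le_rfl zero_le_one d D
  obtain ⟨V, V', iV, iV', G, G', f, g1, g2, g3, g4, g5, g6, _, _, g9⟩ := hmain C
  have := (hC V V' iV iV' G G' g1 g2 g3 g4 g5 ⟨f, g6⟩).2
  linarith

end Pool.Agent.Results.MP_50f558_pr.NotRobust
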